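import Pool.Agent.N728.QG.Def
import Pool.Agent.H373R2.NB.Weyl

/-!
Project QG (helper728), WI (helper169): the inverse theorem for Weyl sums in the form used by the project.
-/

set_option autoImplicit false

namespace Pool.Agent.N169.QG

open Finset Polynomial Pool.Agent.N728.QG
open Pool.Agent.Helper602.MK (ee)

theorem norm_ee (x : ℝ) : ‖ee x‖ = 1 := Pool.Agent.Helper602.MK.N_J5b.norm_ee x

theorem sum_shift (ξ0 ξ1 : ℤ) (h : ξ0 ≤ ξ1) (f : ℤ → ℂ) :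
    ∑ ξ ∈ Ioc ξ0 ξ1, f ξ = ∑ n ∈ range (ξ1 - ξ0).toNat, f ((n : ℤ) + (ξ0 + 1)) := by
  symm
  refine sum_bij (fun n _ => (n : ℤ) + (ξ0 + 1)) ?_ ?_ ?_ ?_
  · intro n hn
    rw [mem_range] at hn
    rw [mem_Ioc]
    constructor <;> omega
  · intro a _ b _ hab
    omega
  · intro x hx
    rw [mem_Ioc] at hx
    refine ⟨(x - (ξ0 + 1)).toNat, ?_, ?_⟩
    · rw [mem_range]
      omega
    · omega
  · intro n _
    rfl

theorem t_WI : S_WI := by
  intro Q hQ δ hδ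
  set d := Q.natDegree with hd
  obtain ⟨c, m, hc, hI⟩ := Pool.Agent.H373R2.NB.IW_all d hQ
  set u : ℝ := 1 / δ + 1 with hu
  have hu1 : 1 ≤ u := by
    have : 0 < 1 / δ := by positivity
    linarith
  have hc1 : (1 : ℝ) ≤ c := by exact_mod_cast hc
  have hcu : 1 ≤ c * u ^ m := one_le_mul_of_one_le_of_one_le hc1 (one_le_pow₀ hu1)
  have hcu0 : 0 < c * u ^ m := by linarith
  have hlc : Q.leadingCoeff ≠ 0 := by
    intro h0
    rw [leadingCoeff_eq_zero] at h0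
    rw [hd, h0, natDegree_zero] at hQ
    omega
  have hlcN : 1 ≤ Q.leadingCoeff.natAbs := Int.natAbs_pos.2 hlc
  have hdf : 1 ≤ d.factorial := Nat.factorial_pos d
  refine ⟨⌊c * u ^ m⌋₊ * (d.factorial * Q.leadingCoeff.natAbs), ?_, c * u ^ m / δ ^ d, by positivity, 1, ?_⟩
  · have h1 : 1 ≤ ⌊c * u ^ m⌋₊ := Nat.le_floor (by rw [Nat.cast_one]; exact hcu)
    exact Nat.mul_pos h1 (Nat.mul_pos hdf hlcN)
  intro L hL ξ0 ξ1 α h01 hlen hS
  have hL0 : (0 : ℝ) < L := by exact_mod_cast hL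
  set N := (ξ1 - ξ0).toNat with hN
  have hNL : N ≤ L := by omega
  set f : ℤ[X] := taylor (ξ0 + 1) Q with hf
  have hfd : f.natDegree ≤ d := by rw [hf, natDegree_taylor]
  have hfc : f.coeff d = Q.leadingCoeff := by rw [hf, hd, coeff_taylor_natDegree]
  have hPh := Pool.Agent.H373R2.NB.Ph_poly d f hfd α
  rw [hfc] at hPh
  have hSe : (∑ ξ ∈ Ioc ξ0 ξ1, Complex.exp (2 * Real.pi * Complex.I * (α * ((Q.eval ξ : ℤ) : ℝ) : ℝ))) =
      ∑ n ∈ range N, ee (α * ((f.eval (n : ℤ) : ℤ) : ℝ)) := by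
    rw [sum_shift ξ0 ξ1 h01]
    refine sum_congr rfl fun n _ => ?_
    rw [hf, taylor_eval]
    unfold ee
    congr 1
    push_cast
    ring
  rw [hSe] at hS
  have hSN : ‖∑ n ∈ range N, ee (α * ((f.eval (n : ℤ) : ℤ) : ℝ))‖ ≤ N := by
    calc ‖∑ n ∈ range N, ee (α * ((f.eval (n : ℤ) : ℤ) : ℝ))‖ ≤
          ∑ n ∈ range N, ‖ee (α * ((f.eval (n : ℤ) : ℤ) : ℝ))‖ := norm_sum_le _ _
      _ = N := by simp [norm_ee]
  have hNδ : δ * L ≤ N := hS.trans hSN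
  have hN0 : (0 : ℝ) < N := lt_of_lt_of_le (by positivity) hNδ
  have hN1 : 1 ≤ N := by exact_mod_cast hN0
  have hNu : (N : ℝ) ≤ u * ‖∑ n ∈ range N, ee (α * ((f.eval (n : ℤ) : ℤ) : ℝ))‖ := by
    have h1 : (N : ℝ) ≤ L := by exact_mod_cast hNL
    have h2 : (L : ℝ) = 1 / δ * (δ * L) := by field_simp
    have h3 : 1 / δ * (δ * L) ≤ 1 / δ * ‖∑ n ∈ range N, ee (α * ((f.eval (n : ℤ) : ℤ) : ℝ))‖ :=
      mul_le_mul_of_nonneg_left hS (by positivity)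
    have h4 := norm_nonneg (∑ n ∈ range N, ee (α * ((f.eval (n : ℤ) : ℤ) : ℝ)))
    rw [hu, add_mul, one_mul]
    linarith
  obtain ⟨q, hq1, hq2, a, ha⟩ := hI N u _ _ hN1 hu1 hPh hNu
  have hqf : q ≤ ⌊c * u ^ m⌋₊ := Nat.le_floor hq2
  set r := q * (d.factorial * Q.leadingCoeff.natAbs) with hr
  have hr1 : 1 ≤ r := Nat.mul_pos hq1 (Nat.mul_pos hdf hlcN)
  have hr0 : (0 : ℝ) < r := by exact_mod_cast hr1
  have hr1' : (1 : ℝ) ≤ r := by exact_mod_cast hr1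
  refine ⟨r, mem_Icc.2 ⟨hr1, Nat.mul_le_mul_right _ hqf⟩, Q.leadingCoeff.sign * a, ?_⟩
  have hsg : ((Q.leadingCoeff.natAbs : ℕ) : ℝ) = (Q.leadingCoeff.sign : ℝ) * (Q.leadingCoeff : ℝ) := by
    have h1 : ((Q.leadingCoeff.natAbs : ℕ) : ℤ) = Q.leadingCoeff.sign * Q.leadingCoeff := by
      rw [Int.sign_mul_self_eq_abs, Int.natCast_natAbs]
    have h2 : (((Q.leadingCoeff.natAbs : ℕ) : ℤ) : ℝ) = ((Q.leadingCoeff.sign * Q.leadingCoeff : ℤ) : ℝ) := by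
      rw [h1]
    rw [Int.cast_natCast, Int.cast_mul] at h2
    exact h2
  have hsg1 : |(Q.leadingCoeff.sign : ℝ)| = 1 := by
    rcases lt_or_gt_of_ne hlc with h | h
    · rw [Int.sign_eq_neg_one_of_neg h]
      simp
    · rw [Int.sign_eq_one_of_pos h]
      simp
  have hkey : |(r : ℝ) * α - ((Q.leadingCoeff.sign * a : ℤ) : ℝ)| ≤ c * u ^ m / (N : ℝ) ^ d := by
    have e : (r : ℝ) * α - ((Q.leadingCoeff.sign * a : ℤ) : ℝ) =
        (Q.leadingCoeff.sign : ℝ) * (q * (α * ((d.factorial : ℝ) * ((Q.leadingCoeff : ℤ) : ℝ))) - a) := by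
      rw [hr]
      push_cast
      rw [hsg]
      ring
    rw [e, abs_mul, hsg1, one_mul]
    exact ha
  have h5 : c * u ^ m / (N : ℝ) ^ d ≤ c * u ^ m / δ ^ d / (L : ℝ) ^ d := by
    rw [div_div, ← mul_pow]
    exact div_le_div_of_nonneg_left hcu0.le (by positivity) (pow_le_pow_left₀ (by positivity) hNδ d)
  have h6 : α - ((Q.leadingCoeff.sign * a : ℤ) : ℝ) / r =
      ((r : ℝ) * α - ((Q.leadingCoeff.sign * a : ℤ) : ℝ)) / r := by
    field_simp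
  rw [h6, abs_div, abs_of_pos hr0]
  exact (div_le_self (abs_nonneg _) hr1').trans (hkey.trans h5)

end Pool.Agent.N169.QG
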